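import Pool.Agent.ATT.Stmts

/-!
# Block ATT, row STK (helper28): one kill
-/

set_option autoImplicit false
set_option linter.unusedSectionVars false

open MeasureTheory ProbabilityTheory Function Filter

open scoped ENNReal BigOperators Topology NNReal Matrix

noncomputable section

namespace Pool.Agent.ATT.H28

open Pool.Agent.LE.QF (HJ HM gG LL dC)
open Pool.Agent.KIL (KJ KGd Cut gam aa yn ym cu)
open Pool.Agent.ANP (Cfg gm Att)

section

variable {X : Type} [Fintype X] [DecidableEq X]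

theorem kl_s (T : Cfg X) (D : Finset X) (ζ : X → ℝ) (x : X) :
    (T.kl D ζ).s x = if x ∈ D then 0 else T.s x := rfl

theorem kl_V (T : Cfg X) (D : Finset X) (ζ : X → ℝ) (x : X) :
    (T.kl D ζ).V x = if x ∈ D then T.V x + ζ x else T.V x := rfl

theorem kl_mb (T : Cfg X) (D : Finset X) (ζ : X → ℝ) : (T.kl D ζ).mb = T.mb := rfl

theorem cosh_low (t : ℝ) : Real.exp |t| ≤ 2 * Real.cosh t := by
  rw [Real.cosh_eq]
  rcases abs_cases t with ⟨h, _⟩ | ⟨h, _⟩ <;> rw [h] <;>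
    have h1 := Real.exp_pos t <;> have h2 := Real.exp_pos (-t) <;> linarith

theorem pe_nonneg (l B : ℝ) (z : ℂ) : 0 ≤ pe l B z := by
  unfold pe
  have h1 := Real.cosh_pos (l * z.re)
  have h2 := Real.cosh_pos (l * z.im)
  positivity

theorem pe_bound (l B ε : ℝ) (z : ℂ) (hl : 0 < l) (hB : 0 ≤ B) (h : pe l (B - l * ε) z < 1) :
    ‖z‖ ≤ 2 * ε := by
  have key : ∀ t : ℝ, 2 * Real.exp (B - l * ε) * Real.cosh (l * t) < 1 → |t| ≤ ε := by
    intro t ht
    have h1 : Real.exp (B - l * ε + |l * t|) < 1 := by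
      rw [Real.exp_add]
      have := mul_le_mul_of_nonneg_left (cosh_low (l * t)) (Real.exp_pos (B - l * ε)).le
      linarith
    have h2 : B - l * ε + |l * t| < 0 := by
      rwa [Real.exp_lt_one_iff] at h1
    rw [abs_mul, abs_of_pos hl] at h2
    have h3 : l * |t| ≤ l * ε := by linarith
    exact le_of_mul_le_mul_left h3 hl
  have h1 := Real.cosh_pos (l * z.re)
  have h2 := Real.cosh_pos (l * z.im)
  have he := Real.exp_pos (B - l * ε)
  unfold pe at h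
  have hr := key z.re (by nlinarith [mul_pos he h2])
  have hi := key z.im (by nlinarith [mul_pos he h1])
  have := Complex.norm_le_abs_re_add_abs_im z
  linarith

variable (A : Pa X)

theorem al_kl (T : Cfg X) (D : Finset X) (ζ : X → ℝ) : A.al (T.kl D ζ) = A.al T \ D := by
  ext x
  simp only [Pa.al, Finset.mem_filter, Finset.mem_sdiff, kl_s]
  by_cases hx : x ∈ D
  · simp [hx]
  · simp [hx]

theorem kd_kl (T : Cfg X) (D : Finset X) (ζ : X → ℝ) (hD : D ⊆ A.al T) :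
    A.kd (T.kl D ζ) = A.kd T ∪ D := by
  ext x
  simp only [Pa.kd, Finset.mem_filter, Finset.mem_union, kl_s]
  by_cases hx : x ∈ D
  · have := (Finset.mem_filter.1 (hD hx)).1
    simp [hx, this]
  · simp [hx]

theorem kd_disj (T : Cfg X) (D : Finset X) (hD : D ⊆ A.al T) : Disjoint (A.kd T) D := by
  rw [Finset.disjoint_left]
  intro x hx hx'
  exact (Finset.mem_filter.1 (hD hx')).2 (Finset.mem_filter.1 hx).2

theorem bud_kl (T : Cfg X) (D : Finset X) (ζ : X → ℝ) (hD : D ⊆ A.al T) (x y : X) :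
    A.bud (T.kl D ζ) x y =
      A.bud T x y - (∑ c ∈ D, cs (A.l x) A.δ (A.p x c) (A.p y c)) * A.v := by
  unfold Pa.bud
  rw [kd_kl A T D ζ hD, Finset.sum_union (kd_disj A T D hD)]
  ring

theorem bum_kl (T : Cfg X) (D : Finset X) (ζ : X → ℝ) (hD : D ⊆ A.al T) (x : X) :
    A.bum (T.kl D ζ) x =
      A.bum T x - (∑ c ∈ D, cm A.lm A.εm A.δ A.gb (A.p x c)) * A.v := by
  unfold Pa.bum
  rw [kd_kl A T D ζ hD, Finset.sum_union (kd_disj A T D hD)]
  ring

theorem mx_mono {κ κ' : X → ℝ} {S S' : Finset X} (G Go : Matrix X X ℂ) (x : X) (hS : S' ⊆ S)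
    (hκ : ∀ y ∈ S', κ' y = κ y) (h0 : ∀ y ∈ S, 0 ≤ κ y) :
    mx κ' S' G Go x ≤ mx κ S G Go x := by
  unfold mx
  refine le_trans (le_of_eq (Finset.sum_congr rfl fun y hy => by rw [hκ y hy])) ?_
  exact Finset.sum_le_sum_of_subset_of_nonneg hS fun y hy _ =>
    mul_nonneg (h0 y hy) (sq_nonneg _)

theorem mx_nonneg {κ : X → ℝ} {S : Finset X} (G Go : Matrix X X ℂ) (x : X)
    (h0 : ∀ y ∈ S, 0 ≤ κ y) : 0 ≤ mx κ S G Go x :=
  Finset.sum_nonneg fun y hy => mul_nonneg (h0 y hy) (sq_nonneg _)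

theorem MM_mono {κ κ' : X → ℝ} {S S' : Finset X} (G Go : Matrix X X ℂ) (hS : S' ⊆ S)
    (hκ : ∀ y ∈ S', κ' y = κ y) (h0 : ∀ y ∈ S, 0 ≤ κ y) :
    MM κ' S' G Go ≤ MM κ S G Go := by
  unfold MM
  refine le_trans (Finset.sum_le_sum (g := fun x => κ x * mx κ S G Go x) fun x hx => ?_) ?_
  · rw [hκ x hx]
    exact mul_le_mul_of_nonneg_left (mx_mono G Go x hS hκ h0) (h0 x (hS hx))
  · exact Finset.sum_le_sum_of_subset_of_nonneg hS fun y hy _ =>
      mul_nonneg (h0 y hy) (mx_nonneg G Go y h0)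

theorem buM_kl (T : Cfg X) (D : Finset X) (ζ : X → ℝ) (hD : D ⊆ A.al T) :
    A.buM (T.kl D ζ) = A.buM T - ((D.card : ℝ) * cM A.lM A.εM A.δ A.gb) * A.v := by
  unfold Pa.buM
  rw [kd_kl A T D ζ hD, Finset.card_union_of_disjoint (kd_disj A T D hD)]
  push_cast
  ring

theorem k_kl (T : Cfg X) (D : Finset X) (ζ : X → ℝ) (y : X) (hy : y ∉ D) :
    A.k (T.kl D ζ) y = A.k T y := by
  unfold Pa.k ka
  rw [kl_s, kl_mb, if_neg hy]

section st

variable {A} {κs g₀ Λ Lc hK kI : ℝ} {T : Cfg X} {Qr D : Finset X} {Go : Matrix X X ℂ}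

theorem im_pos (H : A.Hyp κs g₀ Λ Lc hK kI) (hS : A.St T Qr Go) (x : X) (hx : 0 < T.s x) :
    0 < (T.mb x).im := by
  rw [hS.mb]
  apply H.pimb
  by_cases hR : x ∈ A.R
  · rw [(H.hR x hR).1]
    exact H.pos.2.2.1
  · by_cases hQ : x ∈ A.Q
    · by_cases hr : x ∈ Qr
      · rw [← (hS.rem x hr).2]
        exact hx
      · rw [(hS.app x hQ hr).2] at hx
        exact absurd hx (lt_irrefl _)
    · rw [← (hS.off x hR hQ).2]
      exact hx

theorem k_pos (H : A.Hyp κs g₀ Λ Lc hK kI) (hS : A.St T Qr Go) (x : X) : 0 < A.k T x := by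
  unfold Pa.k ka
  split_ifs with h
  · exact H.pos.1
  · have h1 := im_pos H hS x (pos_iff_ne_zero.2 h)
    have h2 : 0 < A.η := lt_of_lt_of_le H.pos.1 H.pos.2.1
    have h3 : 0 ≤ (T.s x : ℝ) * (T.mb x).im := mul_nonneg (NNReal.coe_nonneg _) h1.le
    linarith

theorem mem_R (hD : D ⊆ A.al T) {x : X} (hx : x ∈ D) : x ∈ A.R := (Finset.mem_filter.1 (hD hx)).1

theorem st_kl (H : A.Hyp κs g₀ Λ Lc hK kI) (hS : A.St T Qr Go) (hD : D ⊆ A.al T)
    (hDk : D ⊆ A.Rk) (hN : (A.kd T).card + D.card ≤ A.N) (ζ : X → ℝ) :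
    A.St (T.kl D ζ) Qr Go := by
  have hQD : ∀ x ∈ A.Q, x ∉ D := fun x hx hx' =>
    (Finset.disjoint_left.1 H.dis (mem_R hD hx')) hx
  refine ⟨hS.mb, ?_, ?_, hS.sub, ?_, ?_, ?_, ?_, ?_, ?_, ?_⟩
  · intro x hR hQ
    have hx : x ∉ D := fun h => hR (mem_R hD h)
    rw [kl_V, kl_s, if_neg hx, if_neg hx]
    exact hS.off x hR hQ
  · intro x hR
    rw [kl_V, kl_s]
    by_cases hx : x ∈ D
    · rw [if_pos hx]
      exact Or.inl rfl
    · rw [if_neg hx, if_neg hx]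
      exact hS.run x hR
  · intro b hb
    have hx := hQD b (hS.sub hb)
    rw [kl_V, kl_s, if_neg hx, if_neg hx]
    exact hS.rem b hb
  · intro b hb hr
    have hx := hQD b hb
    rw [kl_V, kl_s, if_neg hx, if_neg hx]
    exact hS.app b hb hr
  · rw [kd_kl A T D ζ hD]
    exact le_trans (Finset.card_union_le _ _) hN
  · rw [kd_kl A T D ζ hD]
    exact Finset.union_subset hS.near hDk
  · intro x hx y hy
    rw [al_kl] at hx hy
    apply hS.go x _ y (Finset.sdiff_subset hy)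
    rcases Finset.mem_union.1 hx with h | h
    · exact Finset.mem_union_left _ (Finset.sdiff_subset h)
    · exact Finset.mem_union_right _ h
  · intro x hx
    rw [al_kl] at hx ⊢
    refine le_trans (Real.sqrt_le_sqrt ?_) (hS.gm x (Finset.sdiff_subset hx))
    exact mx_mono _ _ _ Finset.sdiff_subset
      (fun y hy => k_kl A T D ζ y (Finset.mem_sdiff.1 hy).2) fun y _ => (k_pos H hS y).le
  · rw [al_kl]
    refine le_trans (Real.sqrt_le_sqrt ?_) hS.gM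
    exact MM_mono _ _ Finset.sdiff_subset
      (fun y hy => k_kl A T D ζ y (Finset.mem_sdiff.1 hy).2) fun y _ => (k_pos H hS y).le

/-! ### the functional -/

theorem WU_nonneg (W : Rn X) (κ : X → ℝ) (t : ℝ) (G : Matrix X X ℂ) : 0 ≤ W.U κ Go t G := by
  unfold Rn.U
  refine add_nonneg (add_nonneg ?_ ?_) (Real.exp_pos _).le
  · exact Finset.sum_nonneg fun x _ => Finset.sum_nonneg fun y _ => pe_nonneg _ _ _
  · exact Finset.sum_nonneg fun x _ => (Real.exp_pos _).le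

theorem U_nonneg (T : Cfg X) : 0 ≤ A.U T Qr Go := by
  unfold Pa.U
  refine add_nonneg (add_nonneg ?_ ?_) (Real.exp_pos _).le
  · exact Finset.sum_nonneg fun x _ => Finset.sum_nonneg fun y _ => pe_nonneg _ _ _
  · exact Finset.sum_nonneg fun x _ => (Real.exp_pos _).le

theorem U_le_Ue (hD : D ⊆ A.al T) (ζ : X → ℝ) :
    A.U (T.kl D ζ) Qr Go ≤ A.Ue T D Qr Go ζ := by
  unfold Pa.Ue Pa.U Rn.U
  simp only [Pa.W]
  rw [al_kl, buM_kl A T D ζ hD]
  refine add_le_add (add_le_add ?_ ?_) le_rfl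
  · refine le_trans (Finset.sum_le_sum_of_subset_of_nonneg
      (Finset.union_subset_union Finset.sdiff_subset (Finset.Subset.refl Qr)) fun x _ _ =>
        Finset.sum_nonneg fun y _ => pe_nonneg _ _ _) ?_
    refine Finset.sum_le_sum fun x _ => ?_
    refine le_trans (Finset.sum_le_sum_of_subset_of_nonneg Finset.sdiff_subset fun y _ _ =>
      pe_nonneg _ _ _) ?_
    refine Finset.sum_le_sum fun y _ => ?_
    rw [bud_kl A T D ζ hD]
  · refine le_trans (Finset.sum_le_sum_of_subset_of_nonneg Finset.sdiff_subset fun y _ _ =>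
      (Real.exp_pos _).le) ?_
    refine Finset.sum_le_sum fun y _ => ?_
    rw [bum_kl A T D ζ hD]

theorem U0_le (H : A.Hyp κs g₀ Λ Lc hK kI) (hS : A.St T Qr Go) :
    (A.W T D Qr).U (A.k T) Go 0 (A.G T) ≤ A.U T Qr Go := by
  unfold Pa.U Rn.U
  simp only [Pa.W, mul_zero, sub_zero]
  have hk : ∀ y ∈ A.al T, 0 ≤ A.k T y := fun y _ => (k_pos H hS y).le
  refine add_le_add (add_le_add le_rfl ?_) ?_
  · refine Finset.sum_le_sum fun x _ => Real.exp_le_exp.2 ?_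
    have := mul_le_mul_of_nonneg_left (sub_le_sub_right (mx_mono (A.G T) Go x
      (Finset.sdiff_subset (t := D)) (fun _ _ => rfl) hk) A.εm) H.pos.2.2.2.2.2.2.2.2.1.le
    linarith
  · refine Real.exp_le_exp.2 ?_
    have := mul_le_mul_of_nonneg_left (sub_le_sub_right (MM_mono (A.G T) Go
      (Finset.sdiff_subset (t := D)) (fun _ _ => rfl) hk) A.εM)
      H.pos.2.2.2.2.2.2.2.2.2.2.2.1.le
    linarith

/-! ### measurability -/

theorem meas_pe (l B : ℝ) (f : (X → ℝ) → ℂ) (hf : Measurable f) :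
    Measurable fun ζ => pe l B (f ζ) := by
  unfold pe
  have h1 : Measurable fun ζ => l * (f ζ).re := (Complex.measurable_re.comp hf).const_mul l
  have h2 : Measurable fun ζ => l * (f ζ).im := (Complex.measurable_im.comp hf).const_mul l
  have h3 : Measurable fun ζ => Real.cosh (l * (f ζ).re) := Real.measurable_cosh.comp h1
  have h4 : Measurable fun ζ => Real.cosh (l * (f ζ).im) := Real.measurable_cosh.comp h2
  exact (h3.add h4).const_mul _

theorem meas_mx (κ : X → ℝ) (S : Finset X) (G : (X → ℝ) → Matrix X X ℂ)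
    (hG : ∀ a b, Measurable fun ζ => G ζ a b) (x : X) :
    Measurable fun ζ => mx κ S (G ζ) Go x := by
  unfold mx
  refine Finset.measurable_fun_sum _ fun y _ => ?_
  have h1 : Measurable fun ζ => G ζ x y - Go x y := (hG x y).sub_const _
  have h2 : Measurable fun ζ => ‖G ζ x y - Go x y‖ := h1.norm
  exact (h2.pow_const 2).const_mul _

theorem meas_MM (κ : X → ℝ) (S : Finset X) (G : (X → ℝ) → Matrix X X ℂ)
    (hG : ∀ a b, Measurable fun ζ => G ζ a b) :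
    Measurable fun ζ => MM κ S (G ζ) Go := by
  unfold MM
  exact Finset.measurable_fun_sum _ fun x _ => (meas_mx κ S G hG x).const_mul _

theorem meas_WU (W : Rn X) (κ : X → ℝ) (t : ℝ) (G : (X → ℝ) → Matrix X X ℂ)
    (hG : ∀ a b, Measurable fun ζ => G ζ a b) :
    Measurable fun ζ => W.U κ Go t (G ζ) := by
  unfold Rn.U
  refine Measurable.add (Measurable.add ?_ ?_) ?_
  · refine Finset.measurable_fun_sum _ fun x _ => Finset.measurable_fun_sum _ fun y _ => ?_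
    exact meas_pe _ _ _ ((hG x y).sub_const _)
  · refine Finset.measurable_fun_sum _ fun x _ => Real.measurable_exp.comp ?_
    exact (((meas_mx κ W.A₃ G hG x).sub_const _).const_mul _).const_add _
  · refine Real.measurable_exp.comp ?_
    exact (((meas_MM κ W.A₃ G hG).sub_const _).const_mul _).const_add _

theorem meas_Ue (hG : ∀ a b, Measurable fun ζ : X → ℝ => A.G (T.kl D ζ) a b) :
    Measurable fun ζ => A.Ue T D Qr Go ζ :=
  meas_WU (A.W T D Qr) (A.k (T.kl D 0)) A.v (fun ζ => A.G (T.kl D ζ)) hG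

theorem meas_U (hD : D ⊆ A.al T) (hG : ∀ a b, Measurable fun ζ : X → ℝ => A.G (T.kl D ζ) a b) :
    Measurable fun ζ => A.U (T.kl D ζ) Qr Go := by
  have e1 : ∀ ζ, A.al (T.kl D ζ) = A.al T \ D := fun ζ => al_kl A T D ζ
  have e2 : ∀ ζ, A.bud (T.kl D ζ) = A.bud (T.kl D 0) := fun ζ => by
    funext x y
    rw [bud_kl A T D ζ hD, bud_kl A T D 0 hD]
  have e3 : ∀ ζ, A.bum (T.kl D ζ) = A.bum (T.kl D 0) := fun ζ => by
    funext x
    rw [bum_kl A T D ζ hD, bum_kl A T D 0 hD]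
  have e4 : ∀ ζ, A.buM (T.kl D ζ) = A.buM (T.kl D 0) := fun ζ => by
    rw [buM_kl A T D ζ hD, buM_kl A T D 0 hD]
  have e5 : ∀ ζ, A.k (T.kl D ζ) = A.k (T.kl D 0) := fun ζ => rfl
  unfold Pa.U
  simp only [e1, e2, e3, e4, e5]
  refine Measurable.add (Measurable.add ?_ ?_) ?_
  · refine Finset.measurable_fun_sum _ fun x _ => Finset.measurable_fun_sum _ fun y _ => ?_
    exact meas_pe _ _ _ ((hG x y).sub_const _)
  · refine Finset.measurable_fun_sum _ fun x _ => Real.measurable_exp.comp ?_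
    exact (((meas_mx _ _ (fun ζ => A.G (T.kl D ζ)) hG x).sub_const _).const_mul _).const_add _
  · refine Real.measurable_exp.comp ?_
    exact (((meas_MM _ _ (fun ζ => A.G (T.kl D ζ)) hG).sub_const _).const_mul _).const_add _

/-! ### one run -/

theorem cs_nonneg {l δ p p' : ℝ} (hl : 0 ≤ l) (hδ : 0 ≤ δ) (hp : 0 ≤ p) (hp' : 0 ≤ p') :
    0 ≤ cs l δ p p' := by
  unfold cs
  positivity

theorem cm_nonneg {lm εm δ gb p : ℝ} (hl : 0 ≤ lm) (hε : 0 ≤ εm) (hδ : 0 ≤ δ) (hg : 0 ≤ gb)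
    (hp : 0 ≤ p) : 0 ≤ cm lm εm δ gb p := by
  unfold cm
  positivity

theorem cM_nonneg {lM εM δ gb : ℝ} (hl : 0 ≤ lM) (hε : 0 ≤ εM) (hδ : 0 ≤ δ) (hg : 0 ≤ gb) :
    0 ≤ cM lM εM δ gb := by
  unfold cM
  positivity

theorem p_nonneg (H : A.Hyp κs g₀ Λ Lc hK kI) {x : X} (hx : x ∈ A.R ∪ A.Q) (c : X) :
    0 ≤ A.p x c := add_nonneg (norm_nonneg _) (H.le x hx).2.2

theorem al_R {x : X} (hx : x ∈ A.al T) : x ∈ A.R := (Finset.mem_filter.1 hx).1

theorem A1_RQ (hS : A.St T Qr Go) {x : X} (hx : x ∈ A.al T ∪ Qr) : x ∈ A.R ∪ A.Q := by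
  rcases Finset.mem_union.1 hx with h | h
  · exact Finset.mem_union_left _ (al_R h)
  · exact Finset.mem_union_right _ (hS.sub h)

/-- the change of the reference matrix, in terms of `Q` -/
theorem go_J (H : A.Hyp κs g₀ Λ Lc hK kI) (hS : A.St T Qr Go) {x c : X} (hx : x ∈ A.al T ∪ Qr)
    (hc : c ∈ A.al T) : ‖Go x c - A.G A.T₀ x c‖ + 2 * A.ε x ≤ A.J x := by
  have h1 := hS.go x hx c hc
  have h2 := H.jj x (A1_RQ hS hx)
  have h3 : (if x ∈ Qr then (A.k A.T₀ x)⁻¹ else A.dT) =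
      if x ∈ A.Q then (A.k A.T₀ x)⁻¹ else A.dT := by
    rcases Finset.mem_union.1 hx with h | h
    · have hq : x ∉ A.Q := Finset.disjoint_left.1 H.dis (al_R h)
      rw [if_neg hq, if_neg fun h' => hq (hS.sub h')]
    · rw [if_pos h, if_pos (hS.sub h)]
  rw [h3] at h1
  have h4 : ((A.Q \ Qr).card : ℝ) ≤ A.Q.card := by
    exact_mod_cast Finset.card_le_card Finset.sdiff_subset
  have h5 := mul_le_mul_of_nonneg_right h4 (mul_nonneg zero_le_two (Real.sqrt_nonneg (A.dT *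
    if x ∈ A.Q then (A.k A.T₀ x)⁻¹ else A.dT)))
  linarith

/-- the budgets are nonnegative during the run -/
theorem bud_run (H : A.Hyp κs g₀ Λ Lc hK kI) (hS : A.St T Qr Go) (hD : D ⊆ A.al T)
    (hN : (A.kd T).card + D.card ≤ A.N) {t : ℝ} (ht : t ≤ A.v) :
    (∀ x ∈ A.al T ∪ Qr, ∀ y ∈ A.al T,
      0 ≤ A.bud T x y - (∑ c ∈ D, cs (A.l x) A.δ (A.p x c) (A.p y c)) * t) ∧
    (∀ x ∈ A.al T, 0 ≤ A.bum T x - (∑ c ∈ D, cm A.lm A.εm A.δ A.gb (A.p x c)) * t) ∧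
    0 ≤ A.buM T - ((D.card : ℝ) * cM A.lM A.εM A.δ A.gb) * t := by
  obtain ⟨-, -, hv, -, -, -, hδ, hgb, hlm, hεm, -, hlM, hεM⟩ := H.pos
  have hv' : (0 : ℝ) ≤ A.v := NNReal.coe_nonneg _
  have hsub : A.kd T ∪ D ⊆ A.R := by
    refine Finset.union_subset (Finset.filter_subset _ _) fun c hc => mem_R hD hc
  have hcard : (A.kd T ∪ D).card ≤ A.N := le_trans (Finset.card_union_le _ _) hN
  obtain ⟨b1, b2⟩ := H.bu (A.kd T ∪ D) hsub hcard
  refine ⟨fun x hx y hy => ?_, fun x hx => ?_, ?_⟩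
  · have hxR := A1_RQ hS hx
    have hyR := al_R hy
    have h1 := b1 x hxR y hyR
    rw [Finset.sum_union (kd_disj A T D hD)] at h1
    have h2 : 0 ≤ ∑ c ∈ D, cs (A.l x) A.δ (A.p x c) (A.p y c) :=
      Finset.sum_nonneg fun c _ => cs_nonneg (H.le x hxR).1.le hδ (p_nonneg H hxR c)
        (p_nonneg H (Finset.mem_union_left _ hyR) c)
    have h3 := mul_le_mul_of_nonneg_left ht h2
    unfold Pa.bud
    nlinarith
  · have hxR := al_R hx
    have h1 := b2 x hxR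
    rw [Finset.sum_union (kd_disj A T D hD)] at h1
    have h2 : 0 ≤ ∑ c ∈ D, cm A.lm A.εm A.δ A.gb (A.p x c) :=
      Finset.sum_nonneg fun c _ => cm_nonneg hlm.le hεm.le hδ hgb
        (p_nonneg H (Finset.mem_union_left _ hxR) c)
    have h3 := mul_le_mul_of_nonneg_left ht h2
    unfold Pa.bum
    nlinarith
  · have h1 := H.buM
    have h2 : 0 ≤ cM A.lM A.εM A.δ A.gb := cM_nonneg hlM.le hεM.le hδ hgb
    have h3 : ((A.kd T).card : ℝ) + D.card ≤ A.N := by exact_mod_cast hN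
    have h4 : (D.card : ℝ) * cM A.lM A.εM A.δ A.gb * t ≤
        (D.card : ℝ) * cM A.lM A.εM A.δ A.gb * A.v :=
      mul_le_mul_of_nonneg_left ht (mul_nonneg (Nat.cast_nonneg _) h2)
    have h5 := mul_le_mul_of_nonneg_left (mul_le_mul_of_nonneg_right h3 h2) hv'
    unfold Pa.buM
    nlinarith

theorem s_v (_H : A.Hyp κs g₀ Λ Lc hK kI) (hS : A.St T Qr Go) {c : X} (hc : c ∈ A.al T) :
    T.s c = A.v := by
  rcases hS.run c (al_R hc) with h | h
  · exact absurd h (Finset.mem_filter.1 hc).2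
  · exact h.2

/-- the functional along the run -/
def uu (A : Pa X) (T : Cfg X) (D Qr : Finset X) (Go : Matrix X X ℂ) (r : ℝ × (D → ℝ)) : ℝ :=
  (A.W T D Qr).U (kr A.η A.e0 A.v T D r.1) Go r.1 (Gk A.Hm A.η A.e0 A.v T D r)

theorem pe_lt {r : ℝ × (D → ℝ)} (h : uu A T D Qr Go r < 1) {x y : X} (hx : x ∈ A.al T ∪ Qr)
    (hy : y ∈ A.al T) :
    pe (A.l x) (A.bud T x y - (∑ c ∈ D, cs (A.l x) A.δ (A.p x c) (A.p y c)) * r.1 -
      A.l x * A.ε x) (Gk A.Hm A.η A.e0 A.v T D r x y - Go x y) < 1 := by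
  refine lt_of_le_of_lt ?_ h
  unfold uu Rn.U
  simp only [Pa.W]
  set f : X → X → ℝ := fun x y => pe (A.l x) (A.bud T x y -
    (∑ c ∈ D, cs (A.l x) A.δ (A.p x c) (A.p y c)) * r.1 - A.l x * A.ε x)
    (Gk A.Hm A.η A.e0 A.v T D r x y - Go x y) with hf
  have h1 : f x y ≤ ∑ y ∈ A.al T, f x y :=
    Finset.single_le_sum (f := fun y => f x y) (fun y _ => pe_nonneg _ _ _) hy
  have h2 : ∑ y ∈ A.al T, f x y ≤ ∑ x ∈ A.al T ∪ Qr, ∑ y ∈ A.al T, f x y :=
    Finset.single_le_sum (f := fun x => ∑ y ∈ A.al T, f x y)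
      (fun x _ => Finset.sum_nonneg fun y _ => pe_nonneg _ _ _) hx
  refine le_trans (h1.trans h2) ?_
  rw [add_assoc]
  refine le_add_of_nonneg_right (add_nonneg ?_ (Real.exp_pos _).le)
  exact Finset.sum_nonneg fun y _ => (Real.exp_pos _).le

theorem run_pt (hUJT : UjtStmt) (hRUN : RunStmt) (H : A.Hyp κs g₀ Λ Lc hK kI)
    (hS : A.St T Qr Go) (hD : D ⊆ A.al T) (hN : (A.kd T).card + D.card ≤ A.N)
    (r : ℝ × (D → ℝ)) (h0 : 0 ≤ r.1) (h1 : r.1 ≤ A.v) :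
    0 ≤ uu A T D Qr Go r ∧ ContDiffAt ℝ 2 (uu A T D Qr Go) r ∧
      (uu A T D Qr Go r < 1 → LL (uu A T D Qr Go) r ≤ 0) := by
  obtain ⟨he0, heη, hv, -, -, -, hδ, hgb, hlm, hεm, -, hlM, hεM⟩ := H.pos
  obtain ⟨hrun, -⟩ := hRUN X A.Hm A.η A.e0 A.v T D H.sym he0 heη hv
    (fun x hx => im_pos H hS x hx) (fun c hc => s_v H hS (hD hc))
  obtain ⟨hKJ, hkr, hW⟩ := hrun r h0 h1
  obtain ⟨b1, b2, b3⟩ := bud_run H hS hD hN h1
  have key := hUJT D X (fun c : D => (c : X)) r (Gk A.Hm A.η A.e0 A.v T D)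
    (kr A.η A.e0 A.v T D) (Gk A.Hm A.η A.e0 A.v T D r) Go (kr A.η A.e0 A.v T D r.1)
    (fun x => (mg A.η A.e0 A.v T x).im)
    (fun c => Gk A.Hm A.η A.e0 A.v T D r c c - mg A.η A.e0 A.v T c) (A.W T D Qr) A.δ A.gb
    hKJ hδ hgb Finset.sdiff_subset Finset.subset_union_left
    (fun c => ⟨hD c.2, fun h => (Finset.mem_sdiff.1 h).2 c.2⟩) (fun y _ => (hkr y).le)
    (fun x hx => ⟨(H.le x (A1_RQ hS hx)).1, (H.le x (A1_RQ hS hx)).2.1, fun c hc => by
      have h2 := go_J H hS hx hc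
      have h3 : ‖Go x c‖ ≤ ‖A.G A.T₀ x c‖ + ‖Go x c - A.G A.T₀ x c‖ := by
        have := norm_add_le (A.G A.T₀ x c) (Go x c - A.G A.T₀ x c)
        rwa [add_sub_cancel] at this
      show ‖Go x c‖ + 2 * A.ε x ≤ ‖A.G A.T₀ x c‖ + A.J x
      linarith⟩)
    hlm hεm hlM hεM b1 b2 b3
    (fun x _ y _ => le_of_eq (Finset.sum_coe_sort D fun c => cs (A.l x) A.δ (A.p x c) (A.p y c)))
    (fun x _ => le_of_eq (Finset.sum_coe_sort D fun c => cm A.lm A.εm A.δ A.gb (A.p x c)))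
    (le_of_eq (by rw [Fintype.card_coe]; rfl)) ?_
  · exact ⟨key.1, key.2.1, key.2.2.1⟩
  · intro hU c
    have hcA : (c : X) ∈ A.al T := hD c.2
    have hc1 : (c : X) ∈ A.al T ∪ Qr := Finset.mem_union_left _ hcA
    have hcR := al_R hcA
    have hl := H.le c (Finset.mem_union_left _ hcR)
    have h2 := pe_bound (A.l c) _ (A.ε c) _ hl.1 (b1 c hc1 c hcA) (pe_lt hU hc1 hcA)
    have h3 := go_J H hS hc1 hcA
    obtain ⟨d1, d2⟩ := H.dia c hcR
    have hm : mg A.η A.e0 A.v T c = mg A.η A.e0 A.v A.T₀ c := by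
      unfold mg
      rw [hS.mb]
    constructor
    · have e1 : Gk A.Hm A.η A.e0 A.v T D r c c - mg A.η A.e0 A.v T c =
          (Gk A.Hm A.η A.e0 A.v T D r c c - Go c c) + (Go c c - A.G A.T₀ c c) +
            (A.G A.T₀ c c - mg A.η A.e0 A.v A.T₀ c) := by
        rw [hm]
        ring
      have e2 := norm_add₃_le (a := Gk A.Hm A.η A.e0 A.v T D r c c - Go c c)
        (b := Go c c - A.G A.T₀ c c) (c := A.G A.T₀ c c - mg A.η A.e0 A.v A.T₀ c)
      show ‖Gk A.Hm A.η A.e0 A.v T D r c c - mg A.η A.e0 A.v T c‖ ≤ A.δ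
      rw [e1]
      linarith
    · have e1 : Gk A.Hm A.η A.e0 A.v T D r c c =
          (Gk A.Hm A.η A.e0 A.v T D r c c - Go c c) + (Go c c - A.G A.T₀ c c) +
            A.G A.T₀ c c := by
        ring
      have e2 := norm_add₃_le (a := Gk A.Hm A.η A.e0 A.v T D r c c - Go c c)
        (b := Go c c - A.G A.T₀ c c) (c := A.G A.T₀ c c)
      rw [← e1] at e2
      have e3 : ∑ y, kr A.η A.e0 A.v T D r.1 y * ‖Gk A.Hm A.η A.e0 A.v T D r c y‖ ^ 2 =
          (Gk A.Hm A.η A.e0 A.v T D r c c).im := by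
        have := hW c c
        have h4 : ∀ y, (kr A.η A.e0 A.v T D r.1 y : ℂ) * (Gk A.Hm A.η A.e0 A.v T D r c y *
            (starRingEnd ℂ) (Gk A.Hm A.η A.e0 A.v T D r c y)) =
            ((kr A.η A.e0 A.v T D r.1 y * ‖Gk A.Hm A.η A.e0 A.v T D r c y‖ ^ 2 : ℝ) : ℂ) := by
          intro y
          rw [Complex.mul_conj, Complex.normSq_eq_norm_sq]
          push_cast
          ring
        rw [Finset.sum_congr rfl fun y _ => h4 y, ← Complex.ofReal_sum] at this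
        exact Complex.ofReal_injective this
      have e4 : ∑ y ∈ A.al T \ D, kr A.η A.e0 A.v T D r.1 y *
          ‖Gk A.Hm A.η A.e0 A.v T D r c y‖ ^ 2 ≤
          ∑ y, kr A.η A.e0 A.v T D r.1 y * ‖Gk A.Hm A.η A.e0 A.v T D r c y‖ ^ 2 :=
        Finset.sum_le_sum_of_subset_of_nonneg (Finset.subset_univ _) fun y _ _ =>
          mul_nonneg (hkr y).le (sq_nonneg _)
      have e5 : (Gk A.Hm A.η A.e0 A.v T D r c c).im ≤ ‖Gk A.Hm A.η A.e0 A.v T D r c c‖ :=
        (le_abs_self _).trans (Complex.abs_im_le_norm _)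
      show ∑ y ∈ A.al T \ D, kr A.η A.e0 A.v T D r.1 y *
          ‖Gk A.Hm A.η A.e0 A.v T D r c y‖ ^ 2 ≤ A.gb
      linarith

end st

end

/-- STK -/
theorem stk (hUJT : UjtStmt) (hRUN : RunStmt) (hMSR : MsrStmt) (hGUF : GufStmt)
    (hCUP : CupStmt) : StkStmt := by
  intro X _ _ A κs g₀ Λ Lc hK kI H T Qr D Go hS hD hDk hN
  obtain ⟨he0, heη, hv, -⟩ := H.pos
  obtain ⟨-, hG0, hk0, hend, hmeas⟩ := hRUN X A.Hm A.η A.e0 A.v T D H.sym he0 heη hv
    (fun x hx => im_pos H hS x hx) (fun c hc => s_v H hS (hD hc))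
  obtain ⟨hcC, hcM, hc1, -, -⟩ := hCUP
  have hcu : Continuous cu := hcC.continuous
  have hv0 : (0 : ℝ) ≤ A.v := NNReal.coe_nonneg _
  have hpt := fun (r : ℝ × (D → ℝ)) (h0 : 0 ≤ r.1) (h1 : r.1 ≤ A.v) =>
    run_pt hUJT hRUN H hS hD hN r h0 h1
  refine ⟨fun ζ => ⟨st_kl H hS hD hDk hN ζ, U_nonneg _, U_le_Ue hD ζ, kd_kl A T D ζ hD,
    al_kl A T D ζ⟩, meas_U hD hmeas, meas_Ue hmeas, ?_⟩
  have hUe : ∀ ζ : X → ℝ, A.Ue T D Qr Go ζ = uu A T D Qr Go ((A.v : ℝ), fun c => ζ c) := by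
    intro ζ
    unfold Pa.Ue uu
    rw [(hend ζ).1]
    show _ = (A.W T D Qr).U (kr A.η A.e0 A.v T D (A.v : ℝ)) Go (A.v : ℝ) _
    rw [(hend ζ).2]
    rfl
  have hcont : Continuous fun V : D → ℝ => uu A T D Qr Go ((A.v : ℝ), V) := by
    rw [continuous_iff_continuousAt]
    intro V
    have h1 : ContinuousAt (uu A T D Qr Go) ((A.v : ℝ), V) :=
      (hpt ((A.v : ℝ), V) hv0 le_rfl).2.1.continuousAt
    have h2 : ContinuousAt (fun V : D → ℝ => ((A.v : ℝ), V)) V :=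
      (continuous_const.prodMk continuous_id).continuousAt
    exact ContinuousAt.comp (f := fun V : D → ℝ => ((A.v : ℝ), V)) h1 h2
  have hFm : Measurable fun V : D → ℝ => ENNReal.ofReal (cu (uu A T D Qr Go ((A.v : ℝ), V))) :=
    (hcu.comp hcont).measurable.ennreal_ofReal
  have h1 := hMSR X T D A.v (fun V => ENNReal.ofReal (cu (uu A T D Qr Go ((A.v : ℝ), V)))) hFm
    (fun c hc => s_v H hS (hD hc))
  have h2 : ∫⁻ ζ, ENNReal.ofReal (cu (A.Ue T D Qr Go ζ)) ∂(gm (fun _ => 0) (T.kv D)) =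
      ∫⁻ V, ENNReal.ofReal (cu (uu A T D Qr Go ((A.v : ℝ), V)))
        ∂(Measure.pi fun _ : D => gaussianReal 0 A.v) := by
    rw [← h1]
    exact lintegral_congr fun ζ => by rw [hUe ζ]
  rw [h2]
  have h3 := hGUF D (A.v : ℝ) (uu A T D Qr Go) (by exact_mod_cast hv) (fun q h0 h1 => hpt q h0 h1)
  rw [Real.toNNReal_coe] at h3
  have hnn : ∀ V : D → ℝ, 0 ≤ cu (uu A T D Qr Go ((A.v : ℝ), V)) ∧
      cu (uu A T D Qr Go ((A.v : ℝ), V)) ≤ 1 := fun V =>
    ⟨(hc1 _ (hpt ((A.v : ℝ), V) hv0 le_rfl).1).1, (hc1 _ (hpt ((A.v : ℝ), V) hv0 le_rfl).1).2.1⟩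
  have hint : Integrable (fun V : D → ℝ => cu (uu A T D Qr Go ((A.v : ℝ), V)))
      (Measure.pi fun _ : D => gaussianReal 0 A.v) := by
    refine Integrable.mono' (integrable_const (1 : ℝ)) (hcu.comp hcont).aestronglyMeasurable ?_
    refine Filter.Eventually.of_forall fun V => ?_
    rw [Real.norm_eq_abs, abs_of_nonneg (hnn V).1]
    exact (hnn V).2
  rw [← ofReal_integral_eq_lintegral_ofReal hint
    (Filter.Eventually.of_forall fun V => (hnn V).1)]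
  refine ENNReal.ofReal_le_ofReal (h3.trans (hcM ?_))
  have h4 : uu A T D Qr Go (0, 0) = (A.W T D Qr).U (A.k T) Go 0 (A.G T) := by
    unfold uu
    have e1 : Gk A.Hm A.η A.e0 A.v T D (0, 0) = A.G T := hG0
    have e2 : kr A.η A.e0 A.v T D ((0 : ℝ), (0 : D → ℝ)).1 = A.k T := hk0
    rw [e1, e2]
  rw [h4]
  exact U0_le H hS

end Pool.Agent.ATT.H28

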